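import Mathlib

set_option autoImplicit false

namespace Pool.Agent.Results.MP_4fae64_co.BeyondRoot

/-- A loopless multigraph with vertex set `V` and edge set `E`; parallel edges are allowed. -/
structure Multigraph (V E : Type) where
  /-- the two ends of an edge -/
  ends : E → Sym2 V
  loopless : ∀ f, ¬ (ends f).IsDiag

variable {V E : Type}

/-- The maximum degree. -/
noncomputable def maxDegree [Fintype V] (G : Multigraph V E) : ℕ :=
  Finset.univ.sup fun v : V => Set.ncard {f : E | v ∈ G.ends f}

/-- `φ` restricted to the edge set `D` is a proper edge colouring with colours `1, …, k`. -/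
def IsColoring (G : Multigraph V E) (D : Set E) (k : ℕ) (φ : E → ℕ) : Prop :=
  (∀ f ∈ D, 1 ≤ φ f ∧ φ f ≤ k) ∧
    ∀ f ∈ D, ∀ g ∈ D, f ≠ g → (∃ v, v ∈ G.ends f ∧ v ∈ G.ends g) → φ f ≠ φ g

/-- The chromatic index of the subgraph of `G` with edge set `D`. -/
noncomputable def chromaticIndex (G : Multigraph V E) (D : Set E) : ℕ :=
  sInf {n : ℕ | ∃ φ : E → ℕ, IsColoring G D n φ}

/-- The colours in `{1, …, k}` on no edge of `G - e` at `v`. -/
def missing (G : Multigraph V E) (e : E) (k : ℕ) (φ : E → ℕ) (v : V) : Set ℕ :=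
  {c | 1 ≤ c ∧ c ≤ k ∧ ∀ f, f ≠ e → v ∈ G.ends f → φ f ≠ c}

/-- `X` is elementary: distinct vertices of `X` miss no common colour. -/
def Elementary (G : Multigraph V E) (e : E) (k : ℕ) (φ : E → ℕ) (X : Set V) : Prop :=
  ∀ u ∈ X, ∀ v ∈ X, u ≠ v → Disjoint (missing G e k φ u) (missing G e k φ v)

/-- The coboundary of `X`: the edges with exactly one end in `X`. -/
def boundary (G : Multigraph V E) (X : Set V) : Set E :=
  {f | ∃ a ∈ X, ∃ b ∉ X, G.ends f = s(a, b)}

/-- `X` is closed: no coloured edge of the coboundary has a colour missing at a vertex of `X`. -/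
def Closed (G : Multigraph V E) (e : E) (k : ℕ) (φ : E → ℕ) (X : Set V) : Prop :=
  ∀ f ∈ boundary G X, f ≠ e → ∀ v ∈ X, φ f ∉ missing G e k φ v

/-- `α` is defective for `X`: two different edges of the coboundary have colour `α`. -/
def Defective (G : Multigraph V E) (e : E) (φ : E → ℕ) (X : Set V) (α : ℕ) : Prop :=
  ∃ f ∈ boundary G X, ∃ g ∈ boundary G X, f ≠ g ∧ f ≠ e ∧ g ≠ e ∧ φ f = α ∧ φ g = α

/-- `Trail G e φ α γ u p v`: one gets from `u` to `v` along the different edges of the list `p`
(in this order), all of them edges of `G - e` coloured `α` or `γ`. -/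
inductive Trail (G : Multigraph V E) (e : E) (φ : E → ℕ) (α γ : ℕ) (u : V) : List E → V → Prop
  | nil : Trail G e φ α γ u [] u
  | snoc {p : List E} {v w : V} {f : E} (hp : Trail G e φ α γ u p v) (he : f ≠ e) (hf : f ∉ p)
      (hc : φ f = α ∨ φ f = γ) (hends : G.ends f = s(v, w)) :
      Trail G e φ α γ u (p ++ [f]) w

/-- `f` is the first edge of the path `P_u(α, γ, φ)`, in the order from `u`, that lies in the
coboundary of `X`. -/
def FirstExit (G : Multigraph V E) (e : E) (φ : E → ℕ) (α γ : ℕ) (u : V) (X : Set V)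
    (f : E) : Prop :=
  f ∈ boundary G X ∧ ∃ (p : List E) (v : V), Trail G e φ α γ u (p ++ [f]) v ∧
    ∀ g ∈ p, g ∉ boundary G X

/-- The vertices of the tree sequence `(x, e_1, y_1, …, e_p, y_p)`, given by `x` and the list
`[(e_1, y_1), …, (e_p, y_p)]`. -/
def verts (x : V) (L : List (E × V)) : Set V :=
  {v | v = x ∨ ∃ f, (f, v) ∈ L}

/-- The class of the problem: `Ext G e x y k φ L` says that the tree sequence given by `x` and the
list `L` is obtained from `(x, e, y)` by the rules (E2) and (E3). -/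
inductive Ext (G : Multigraph V E) (e : E) (x y : V) (k : ℕ) (φ : E → ℕ) :
    List (E × V) → Prop
  | start : Ext G e x y k φ [(e, y)]
  | rule2 {L : List (E × V)} {f : E} {a b z : V} (hL : Ext G e x y k φ L)
      (ha : a ∈ verts x L) (hb : b ∉ verts x L) (hf : G.ends f = s(a, b))
      (hz : z ∈ verts x L) (hc : φ f ∈ missing G e k φ z) :
      Ext G e x y k φ (L ++ [(f, b)])
  | rule3 {L : List (E × V)} {f : E} {a b u : V} {γ : ℕ} (hL : Ext G e x y k φ L)
      (hcl : Closed G e k φ (verts x L)) (hd : Defective G e φ (verts x L) (φ f))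
      (ha : a ∈ verts x L) (hb : b ∉ verts x L) (hf : G.ends f = s(a, b))
      (hu : u ∈ verts x L) (hγ : γ ∈ missing G e k φ u)
      (hused : ∀ q ∈ L, q.1 ≠ e → φ q.1 ≠ γ)
      (hfirst : FirstExit G e φ (φ f) γ u (verts x L) f) :
      Ext G e x y k φ (L ++ [(f, b)])

/-! ## The graphs -/

/-- The two edges of a colour class inside the core, for each of the six types of colours. -/
def pat : Fin 6 → Bool → Sym2 (Fin 6)
  | 0, false => s(1, 2)
  | 0, true => s(3, 4)
  | 1, false => s(0, 2)
  | 1, true => s(3, 4)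
  | 2, false => s(0, 1)
  | 2, true => s(3, 4)
  | 3, false => s(0, 4)
  | 3, true => s(1, 2)
  | 4, false => s(0, 3)
  | 4, true => s(1, 2)
  | 5, false => s(0, 3)
  | 5, true => s(1, 4)

/-- The type of a colour. -/
def patOf : ℕ → Fin 6
  | 0 => 5
  | 1 => 0
  | 2 => 1
  | (c + 3) => ⟨c % 5, by omega⟩

/-- The edges: `none` is the critical edge, `some none` the pendant edge. -/
abbrev Edg (k : ℕ) : Type := Option (Option (Fin k × Bool))

/-- The ends of an edge. -/
def en (k : ℕ) : Edg k → Sym2 (Fin 6)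
  | none => s(0, 1)
  | some none => s(2, 5)
  | some (some q) => pat (patOf q.1) q.2

/-- The colouring (the value at the critical edge is irrelevant). -/
def col (k : ℕ) : Edg k → ℕ
  | none => 0
  | some none => 1
  | some (some q) => q.1 + 1

/-- The multigraph. -/
def gr (k : ℕ) : Multigraph (Fin 6) (Edg k) where
  ends := en k
  loopless := by
    rintro (_ | _ | ⟨c, b⟩)
    · simp [en]
    · simp [en]
    · have : ∀ (p : Fin 6) (b : Bool), ¬ (pat p b).IsDiag := by decide
      exact this _ _

theorem patOf_zero {c : ℕ} (h : patOf c = 5) : c = 0 := by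
  match c with
  | 0 => rfl
  | 1 => exact absurd h (by decide)
  | 2 => exact absurd h (by decide)
  | (c + 3) =>
    exfalso
    have h1 := congrArg Fin.val h
    simp only [patOf] at h1
    have : ((5 : Fin 6) : ℕ) = 5 := rfl
    omega

theorem coloring (k : ℕ) (hk : 1 ≤ k) : IsColoring (gr k) {none}ᶜ k (col k) := by
  have e1 : ∀ (p : Fin 6), ¬ ∃ v, v ∈ pat p false ∧ v ∈ pat p true := by decide
  have e2 : ∀ (b : Bool), ¬ ∃ v, v ∈ pat 5 b ∧ v ∈ (s(2, 5) : Sym2 (Fin 6)) := by decide
  refine ⟨?_, ?_⟩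
  · rintro (_ | _ | ⟨c, b⟩) hf
    · simp at hf
    · simp [col, hk]
    · simp only [col]
      have := c.2
      omega
  · rintro (_ | _ | ⟨c, b⟩) hf (_ | _ | ⟨c', b'⟩) hg hne ⟨v, hv, hv'⟩ heq
    · simp at hf
    · simp at hf
    · simp at hf
    · simp at hg
    · exact hne rfl
    · simp only [col] at heq
      have hc : (c' : ℕ) = 0 := by omega
      simp only [gr, en] at hv hv'
      rw [hc] at hv'
      exact e2 b' ⟨v, hv', hv⟩
    · simp at hg
    · simp only [col] at heq
      have hc : (c : ℕ) = 0 := by omega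
      simp only [gr, en] at hv hv'
      rw [hc] at hv
      exact e2 b ⟨v, hv, hv'⟩
    · simp only [col] at heq
      have hc : c = c' := by
        apply Fin.ext
        omega
      subst hc
      simp only [gr, en] at hv hv'
      rcases b with _ | _ <;> rcases b' with _ | _
      · exact hne rfl
      · exact e1 _ ⟨v, hv, hv'⟩
      · exact e1 _ ⟨v, hv', hv⟩
      · exact hne rfl

theorem not_coloring (k : ℕ) : ¬ ∃ φ : Edg k → ℕ, IsColoring (gr k) Set.univ k φ := by
  rintro ⟨φ, h1, h2⟩
  -- the core edges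
  let core : Option (Fin k × Bool) → Edg k := fun q => q.elim none (fun r => some (some r))
  have hinj : Function.Injective core := by
    rintro (_ | a) (_ | b) h <;> simp_all [core]
  have hcard : (Finset.Icc 1 k).card * 2 < (Finset.univ : Finset (Option (Fin k × Bool))).card := by
    simp [Fintype.card_option]
  obtain ⟨c, -, hc⟩ := Finset.exists_lt_card_fiber_of_mul_lt_card_of_maps_to
    (f := fun q => φ (core q)) (s := Finset.univ) (t := Finset.Icc 1 k) (n := 2)
    (fun q _ => by
      have := h1 (core q) (Set.mem_univ _)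
      simpa using this) hcard
  obtain ⟨f, g, h, hf, hg, hh, hfg, hfh, hgh⟩ := Finset.two_lt_card_iff.1 hc
  simp only [Finset.mem_filter, Finset.mem_univ, true_and] at hf hg hh
  have three : ∀ p q r : Option (Fin 6 × Bool),
      (∃ v, v ∈ (p.elim (s(0, 1) : Sym2 (Fin 6)) (fun t => pat t.1 t.2)) ∧
        v ∈ (q.elim (s(0, 1) : Sym2 (Fin 6)) (fun t => pat t.1 t.2))) ∨
      (∃ v, v ∈ (p.elim (s(0, 1) : Sym2 (Fin 6)) (fun t => pat t.1 t.2)) ∧
        v ∈ (r.elim (s(0, 1) : Sym2 (Fin 6)) (fun t => pat t.1 t.2))) ∨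
      (∃ v, v ∈ (q.elim (s(0, 1) : Sym2 (Fin 6)) (fun t => pat t.1 t.2)) ∧
        v ∈ (r.elim (s(0, 1) : Sym2 (Fin 6)) (fun t => pat t.1 t.2))) := by
    decide +kernel
  have hen : ∀ q : Option (Fin k × Bool), (gr k).ends (core q) =
      ((q.map fun t => (patOf t.1, t.2)).elim (s(0, 1) : Sym2 (Fin 6))
        (fun t => pat t.1 t.2)) := by
    rintro (_ | q) <;> rfl
  rcases three (f.map fun t => (patOf t.1, t.2)) (g.map fun t => (patOf t.1, t.2))
    (h.map fun t => (patOf t.1, t.2)) with hv | hv | hv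
  · rw [← hen, ← hen] at hv
    exact h2 _ (Set.mem_univ _) _ (Set.mem_univ _) (hinj.ne hfg) hv (hf.trans hg.symm)
  · rw [← hen, ← hen] at hv
    exact h2 _ (Set.mem_univ _) _ (Set.mem_univ _) (hinj.ne hfh) hv (hf.trans hh.symm)
  · rw [← hen, ← hen] at hv
    exact h2 _ (Set.mem_univ _) _ (Set.mem_univ _) (hinj.ne hgh) hv (hg.trans hh.symm)

theorem index (k : ℕ) (hk : 1 ≤ k) : chromaticIndex (gr k) Set.univ = k + 1 := by
  apply le_antisymm
  · apply Nat.sInf_le
    obtain ⟨c1, c2⟩ := coloring k hk
    refine ⟨fun f => if f = none then k + 1 else col k f, ?_, ?_⟩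
    · intro f _
      by_cases hf : f = none
      · simp [hf]
      · have := c1 f (by simpa using hf)
        simp only [hf, if_false]
        omega
    · intro f _ g _ hfg hv
      by_cases hf : f = none
      · have hg : g ≠ none := by
          rintro rfl
          exact hfg hf
        have := c1 g (by simpa using hg)
        simp only [hf, hg, if_true, if_false]
        omega
      · by_cases hg : g = none
        · have := c1 f (by simpa using hf)
          simp only [hf, hg, if_true, if_false]
          omega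
        · simp only [hf, hg, if_false]
          exact c2 f (by simpa using hf) g (by simpa using hg) hfg hv
  · apply le_csInf
    · obtain ⟨c1, c2⟩ := coloring k hk
      refine ⟨k + 1, fun f => if f = none then k + 1 else col k f, ?_, ?_⟩
      · intro f _
        by_cases hf : f = none
        · simp [hf]
        · have := c1 f (by simpa using hf)
          simp only [hf, if_false]
          omega
      · intro f _ g _ hfg hv
        by_cases hf : f = none
        · have hg : g ≠ none := by
            rintro rfl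
            exact hfg hf
          have := c1 g (by simpa using hg)
          simp only [hf, hg, if_true, if_false]
          omega
        · by_cases hg : g = none
          · have := c1 f (by simpa using hf)
            simp only [hf, hg, if_true, if_false]
            omega
          · simp only [hf, hg, if_false]
            exact c2 f (by simpa using hf) g (by simpa using hg) hfg hv
    · rintro n ⟨φ, h1, h2⟩
      by_contra hn
      exact not_coloring k ⟨φ, fun f hf => ⟨(h1 f hf).1, (h1 f hf).2.trans (by omega)⟩, h2⟩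

/-! ## Degrees -/

/-- Number of edges of a colour of type `p` at `v`. -/
def wt (v : Fin 6) (p : Fin 6) : ℕ :=
  (if v ∈ pat p true then 1 else 0) + (if v ∈ pat p false then 1 else 0)

theorem sum_wt (v : Fin 6) (s : ℕ) :
    ∑ c ∈ Finset.range (5 * s + 8), wt v (patOf c) =
      (∑ c ∈ Finset.range 8, wt v (patOf c)) +
        s * (wt v 0 + wt v 1 + wt v 2 + wt v 3 + wt v 4) := by
  induction s with
  | zero => simp
  | succ s ih =>
    have e : 5 * (s + 1) + 8 = 5 * s + 8 + 1 + 1 + 1 + 1 + 1 := by ring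
    rw [e, Finset.sum_range_succ, Finset.sum_range_succ, Finset.sum_range_succ,
      Finset.sum_range_succ, Finset.sum_range_succ, ih]
    have p0 : patOf (5 * s + 8) = 0 := by
      have : patOf (5 * s + 8) = patOf ((5 * s + 5) + 3) := by congr 1
      rw [this]; simp only [patOf]; apply Fin.ext; simp only []; show (5 * s + 5) % 5 = 0; omega
    have p1 : patOf (5 * s + 8 + 1) = 1 := by
      have : patOf (5 * s + 8 + 1) = patOf ((5 * s + 6) + 3) := by congr 1
      rw [this]; simp only [patOf]; apply Fin.ext; simp only []; show (5 * s + 6) % 5 = 1; omega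
    have p2 : patOf (5 * s + 8 + 1 + 1) = 2 := by
      have : patOf (5 * s + 8 + 1 + 1) = patOf ((5 * s + 7) + 3) := by congr 1
      rw [this]; simp only [patOf]; apply Fin.ext; simp only []; show (5 * s + 7) % 5 = 2; omega
    have p3 : patOf (5 * s + 8 + 1 + 1 + 1) = 3 := by
      have : patOf (5 * s + 8 + 1 + 1 + 1) = patOf ((5 * s + 8) + 3) := by congr 1
      rw [this]; simp only [patOf]; apply Fin.ext; simp only []; show (5 * s + 8) % 5 = 3; omega
    have p4 : patOf (5 * s + 8 + 1 + 1 + 1 + 1) = 4 := by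
      have : patOf (5 * s + 8 + 1 + 1 + 1 + 1) = patOf ((5 * s + 9) + 3) := by congr 1
      rw [this]; simp only [patOf]; apply Fin.ext; simp only []; show (5 * s + 9) % 5 = 4; omega
    rw [p0, p1, p2, p3, p4]
    ring

theorem degree (v : Fin 6) (s : ℕ) :
    Set.ncard {f : Edg (5 * s + 8) | v ∈ (gr (5 * s + 8)).ends f} =
      (if v ∈ (s(0, 1) : Sym2 (Fin 6)) then 1 else 0) +
      ((if v ∈ (s(2, 5) : Sym2 (Fin 6)) then 1 else 0) +
      ((∑ c ∈ Finset.range 8, wt v (patOf c)) +
        s * (wt v 0 + wt v 1 + wt v 2 + wt v 3 + wt v 4))) := by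
  have h : {f : Edg (5 * s + 8) | v ∈ (gr (5 * s + 8)).ends f} =
      ((Finset.univ.filter (fun f : Edg (5 * s + 8) => v ∈ (gr (5 * s + 8)).ends f) :
        Finset (Edg (5 * s + 8))) : Set (Edg (5 * s + 8))) := by
    ext f; simp
  rw [h, Set.ncard_coe_finset, Finset.card_filter, Fintype.sum_option, Fintype.sum_option,
    Fintype.sum_prod_type, ← sum_wt, ← Fin.sum_univ_eq_sum_range]
  simp only [gr, en, Fintype.sum_bool, wt]
  congr!

theorem degree_eq (v : Fin 6) (s : ℕ) :
    Set.ncard {f : Edg (5 * s + 8) | v ∈ (gr (5 * s + 8)).ends f} =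
      if v = 5 then 1 else 4 * s + 7 := by
  rw [degree]
  have hA : ∀ v : Fin 6, ((if v ∈ (s(0, 1) : Sym2 (Fin 6)) then 1 else 0) +
      ((if v ∈ (s(2, 5) : Sym2 (Fin 6)) then 1 else 0) +
      (∑ c ∈ Finset.range 8, wt v (patOf c)))) = if v = 5 then 1 else 7 := by
    decide +kernel
  have hB : ∀ v : Fin 6, (wt v 0 + wt v 1 + wt v 2 + wt v 3 + wt v 4) = if v = 5 then 0 else 4 := by
    decide +kernel
  rw [hB v]
  have := hA v
  by_cases hv : v = 5
  · simp only [hv, if_true] at this ⊢
    omega
  · simp only [hv, if_false] at this ⊢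
    omega

theorem maxDegree_eq (s : ℕ) : maxDegree (gr (5 * s + 8)) = 4 * s + 7 := by
  unfold maxDegree
  apply le_antisymm
  · apply Finset.sup_le
    intro v _
    rw [degree_eq]
    split_ifs <;> omega
  · have := Finset.le_sup (f := fun v : Fin 6 =>
      Set.ncard {f : Edg (5 * s + 8) | v ∈ (gr (5 * s + 8)).ends f}) (Finset.mem_univ 3)
    rw [degree_eq] at this
    simpa using this

/-- **Disproof for all `s`**: a counterexample with `Δ = 4s + 7` and `k = 5s + 8 = Δ + 1 + s`. -/
theorem result (s : ℕ) :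
    ∃ (G : Multigraph (Fin 6) (Option (Option (Fin (5 * s + 8) × Bool))))
      (e : Option (Option (Fin (5 * s + 8) × Bool))) (x y : Fin 6)
      (φ : Option (Option (Fin (5 * s + 8) × Bool)) → ℕ)
      (T : List (Option (Option (Fin (5 * s + 8) × Bool)) × Fin 6)),
      maxDegree G = 4 * s + 7 ∧
      chromaticIndex G Set.univ = (5 * s + 8) + 1 ∧
      chromaticIndex G {e}ᶜ < chromaticIndex G Set.univ ∧
      G.ends e = s(x, y) ∧
      IsColoring G {e}ᶜ (5 * s + 8) φ ∧
      Ext G e x y (5 * s + 8) φ T ∧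
      ¬ Elementary G e (5 * s + 8) φ (verts x T) := by
  have hk : 1 ≤ 5 * s + 8 := by omega
  set k := 5 * s + 8 with hkdef
  have hcol := coloring k hk
  let f1 : Edg k := some (some (⟨1, by omega⟩, false))
  let f0 : Edg k := some (some (⟨0, by omega⟩, false))
  let f0' : Edg k := some (some (⟨0, by omega⟩, true))
  have hf1 : (gr k).ends f1 = s(1, 2) := rfl
  have hf0 : (gr k).ends f0 = s(0, 3) := rfl
  have hf0' : (gr k).ends f0' = s(1, 4) := rfl
  have hm0 : 2 ∈ missing (gr k) none k (col k) 0 := by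
    refine ⟨by omega, by omega, ?_⟩
    rintro (_ | _ | ⟨c, b⟩) hf hv hc
    · exact hf rfl
    · simp [col] at hc
    · simp only [col] at hc
      have hc' : (c : ℕ) = 1 := by omega
      simp only [gr, en] at hv
      rw [hc'] at hv
      clear hf
      revert hv
      revert b
      decide
  have hm5 : 2 ∈ missing (gr k) none k (col k) 5 := by
    refine ⟨by omega, by omega, ?_⟩
    rintro (_ | _ | ⟨c, b⟩) hf hv hc
    · exact hf rfl
    · simp [col] at hc
    · simp only [gr, en] at hv
      have : ∀ (p : Fin 6) (b : Bool), ¬ (5 : Fin 6) ∈ pat p b := by decide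
      exact this _ _ hv
  have hm2 : 6 ∈ missing (gr k) none k (col k) 2 := by
    refine ⟨by omega, by omega, ?_⟩
    rintro (_ | _ | ⟨c, b⟩) hf hv hc
    · exact hf rfl
    · simp [col] at hc
    · simp only [col] at hc
      have hc' : (c : ℕ) = 5 := by omega
      simp only [gr, en] at hv
      rw [hc'] at hv
      clear hf
      revert hv
      revert b
      decide
  -- the closed tree sequence `(x, e, y, f1, z)`
  have hv1 : verts (0 : Fin 6) [((none : Edg k), (1 : Fin 6))] = {0, 1} := by
    ext v; simp [verts]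
  have hv2 : verts (0 : Fin 6) ([((none : Edg k), (1 : Fin 6))] ++ [(f1, 2)]) = {0, 1, 2} := by
    ext v
    constructor
    · rintro (rfl | ⟨f, hf⟩)
      · simp
      · simp only [List.cons_append, List.nil_append, List.mem_cons, Prod.mk.injEq,
          List.not_mem_nil, or_false] at hf
        rcases hf with ⟨-, rfl⟩ | ⟨-, rfl⟩ <;> simp
    · rintro (rfl | rfl | rfl)
      · exact Or.inl rfl
      · exact Or.inr ⟨none, by simp⟩
      · exact Or.inr ⟨f1, by simp⟩
  have hv3 : (0 : Fin 6) ∈ verts (0 : Fin 6)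
      ([((none : Edg k), (1 : Fin 6))] ++ [(f1, 2)] ++ [((some none : Edg k), 5)]) := by
    simp [verts]
  have hv4 : (5 : Fin 6) ∈ verts (0 : Fin 6)
      ([((none : Edg k), (1 : Fin 6))] ++ [(f1, 2)] ++ [((some none : Edg k), 5)]) := by
    simp [verts]
  have hT1 : Ext (gr k) none 0 1 k (col k) ([((none : Edg k), (1 : Fin 6))] ++ [(f1, 2)]) := by
    refine Ext.rule2 (a := 1) (z := 0) Ext.start ?_ ?_ hf1 ?_ ?_
    · rw [hv1]; simp
    · rw [hv1]; simp
    · rw [hv1]; simp
    · exact hm0
  have hbd : ∀ f ∈ boundary (gr k) ({0, 1, 2} : Set (Fin 6)),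
      ∃ a b : Fin 6, a.val < 3 ∧ 3 ≤ b.val ∧ (gr k).ends f = s(a, b) := by
    rintro f ⟨a, ha, b, hb, h⟩
    refine ⟨a, b, ?_, ?_, h⟩
    · have : ∀ a : Fin 6, (a = 0 ∨ a = 1 ∨ a = 2) → a.val < 3 := by decide
      exact this a (by simpa using ha)
    · have : ∀ b : Fin 6, ¬ (b = 0 ∨ b = 1 ∨ b = 2) → 3 ≤ b.val := by decide
      exact this b (by simpa using hb)
  have hcl : Closed (gr k) none k (col k) ({0, 1, 2} : Set (Fin 6)) := by
    intro f hf hfe v hv hmiss
    have hv' : v.val < 3 := by
      have : ∀ a : Fin 6, (a = 0 ∨ a = 1 ∨ a = 2) → a.val < 3 := by decide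
      exact this v (by simpa using hv)
    obtain ⟨-, -, hmiss⟩ := hmiss
    obtain ⟨a, b, ha, hb, hab⟩ := hbd f hf
    -- all three vertices see colour `1`
    have see1 : ∀ v : Fin 6, v.val < 3 → ∃ g : Edg k, g ≠ none ∧ v ∈ (gr k).ends g ∧
        col k g = 1 := by
      intro v hv
      have : v = 0 ∨ v = 1 ∨ v = 2 := by
        revert hv; revert v; decide
      rcases this with rfl | rfl | rfl
      · exact ⟨f0, by simp [f0], by rw [hf0]; decide, rfl⟩
      · exact ⟨f0', by simp [f0'], by rw [hf0']; decide, rfl⟩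
      · exact ⟨some none, by simp, by show (2 : Fin 6) ∈ s(2, 5); decide, rfl⟩
    rcases f with _ | _ | ⟨c, b'⟩
    · exact hfe rfl
    · obtain ⟨g, hg1, hg2, hg3⟩ := see1 v hv'
      exact hmiss g hg1 hg2 (by rw [hg3]; rfl)
    · have key : ∀ (p : Fin 6) (b' : Bool) (a b v : Fin 6), p ≠ 5 → pat p b' = s(a, b) →
          a.val < 3 → 3 ≤ b.val → v.val < 3 → ∃ b'' : Bool, v ∈ pat p b'' := by
        decide +kernel
      by_cases hp : patOf c = 5
      · have hc := patOf_zero hp
        obtain ⟨g, hg1, hg2, hg3⟩ := see1 v hv'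
        exact hmiss g hg1 hg2 (by rw [hg3]; simp only [col]; omega)
      · obtain ⟨b'', hb''⟩ := key (patOf c) b' a b v hp hab ha hb hv'
        exact hmiss (some (some (c, b''))) (by simp) hb'' rfl
  have hpend : (gr k).ends (some none) = s(2, 5) := rfl
  have hbp : (some none : Edg k) ∈ boundary (gr k) ({0, 1, 2} : Set (Fin 6)) :=
    ⟨2, by simp, 5, by simp, hpend⟩
  have hT2 : Ext (gr k) none 0 1 k (col k)
      ([((none : Edg k), (1 : Fin 6))] ++ [(f1, 2)] ++ [((some none : Edg k), 5)]) := by
    refine Ext.rule3 (a := 2) (u := 2) (γ := 6) hT1 ?_ ?_ ?_ ?_ hpend ?_ hm2 ?_ ?_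
    · rw [hv2]; exact hcl
    · rw [hv2]
      exact ⟨f0, ⟨0, by simp, 3, by simp, hf0⟩, f0', ⟨1, by simp, 4, by simp, hf0'⟩,
        by simp [f0, f0'], by simp [f0], by simp [f0'], rfl, rfl⟩
    · rw [hv2]; simp
    · rw [hv2]; simp
    · rw [hv2]; simp
    · intro q hq hqe
      simp only [List.cons_append, List.nil_append, List.mem_cons, List.not_mem_nil,
        or_false] at hq
      rcases hq with rfl | rfl
      · exact absurd rfl hqe
      · simp [col, f1]
    · rw [hv2]
      refine ⟨hbp, [], 5, ?_, by simp⟩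
      exact Trail.snoc Trail.nil (by simp) (by simp) (Or.inl rfl) hpend
  refine ⟨gr k, none, 0, 1, col k, _, maxDegree_eq s, index k hk, ?_, rfl, hcol, hT2, ?_⟩
  · rw [index k hk]
    exact Nat.lt_succ_of_le (Nat.sInf_le ⟨col k, hcol⟩)
  · intro hel
    exact Set.disjoint_left.1 (hel 0 hv3 5 hv4 (by decide)) hm0 hm5

end Pool.Agent.Results.MP_4fae64_co.BeyondRoot
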